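import Pool.Agent.Q193.FR.Main

set_option autoImplicit false

/-!
A Frechet algebra of power series in infinitely many variables, different from the algebra of all
formal power series, with two different Frechet algebra topologies.

The algebra `A` consists of the power series whose homogeneous components are absolutely summable.
The elements of `A` of bounded degree form a graded algebra on which the partial derivatives act
with degree `-1` and without common constants of positive degree. In characteristic zero such a
graded algebra is a polynomial ring on any lift of a basis of the indecomposables. Therefore every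
linear automorphism of the part of degree one, also a discontinuous one, extends to an automorphism
of `A`, and the topology can be transported by it.
-/

open Topology

namespace Pool.Agent.Results.MP_39588e_an.SecondTopology

/-- `τ` is a Frechet algebra topology on the commutative unital complex algebra `A`: it is given by
an increasing sequence of submultiplicative seminorms which separates the points and for which `A`
is complete. -/
def IsFrechetAlgebra {A : Type} [CommRing A] [Algebra ℂ A] (τ : TopologicalSpace A) : Prop :=
  ∃ p : ℕ → Seminorm ℂ A, Monotone p ∧ (∀ m a b, p m (a * b) ≤ p m a * p m b) ∧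
    WithSeminorms (topology := τ) (p : SeminormFamily ℂ A ℕ) ∧ (∀ a, (∀ m, p m a = 0) → a = 0) ∧
    ∀ s : ℕ → A, (∀ m, ∀ ε : ℝ, 0 < ε → ∃ N, ∀ i ≥ N, ∀ j ≥ N, p m (s i - s j) < ε) →
      ∃ a, ∀ m, Filter.Tendsto (fun i => p m (s i - a)) Filter.atTop (nhds 0)

/-- There is a proper subalgebra `A` of the algebra of the formal power series in the variables
`X 0, X 1, ...` which contains all variables and carries two different Frechet algebra topologies
`τ₁`, `τ₂`, the coefficients being continuous for `τ₁`. -/
theorem result : ∃ (A : Subalgebra ℂ (MvPowerSeries ℕ ℂ)) (τ₁ τ₂ : TopologicalSpace A),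
    A ≠ ⊤ ∧ (∀ i, MvPowerSeries.X i ∈ A) ∧ IsFrechetAlgebra τ₁ ∧
    (∀ r : ℕ →₀ ℕ, Continuous[τ₁, inferInstance]
      fun f : A => MvPowerSeries.coeff r (f : MvPowerSeries ℕ ℂ)) ∧
    IsFrechetAlgebra τ₂ ∧ τ₁ ≠ τ₂ :=
  Pool.Agent.Q193.FR.main

end Pool.Agent.Results.MP_39588e_an.SecondTopology
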